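import Pool.Agent.Q282.LT.PoisZ

/-!
# Sparse configurations of residues over boxes: explicit level of truncation
-/

set_option autoImplicit false
set_option linter.unusedSectionVars false

namespace Q69LT

open Finset
open Q282LT
open Q282.BP (bx mem_bx card_bx bx_mean mean_mul_period)
open Pool.Agent.TH894.NE (box mem_box card_box Per mean mean_mul mean_mono mean_add mean_const mean_prod two_mod)

/-- The average over a box of a bounded function of the configuration and the average over all residues, truncation at the level `J`. -/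
theorem conf_J {κ : Type} (J : ℕ) (Λ : ℝ) (d : ℕ) (I : Finset ℕ) (q : ℕ → ℕ) (τ : ℕ → (Fin d → ℕ) → Option κ)
    (hq : ∀ b ∈ I, 1 ≤ q b) (hco : ∀ a ∈ I, ∀ b ∈ I, a ≠ b → Nat.Coprime (q a) (q b))
    (hτ : ∀ b ∈ I, ∀ n, τ b n = τ b (fun i => n i % q b)) (hlam : ∑ a ∈ I, mean d (q a) (fun n => hit (τ a n)) ≤ Λ)
    (Y : ℕ) (hY1 : 1 ≤ Y) (hY : ∀ a ∈ I, q a ≤ Y) (hIY : I.card ≤ Y) (T₀ : ℝ) (hT0 : 0 < T₀) (hdT : (d : ℝ) * (Y : ℝ) ^ J ≤ T₀)
    (L : Fin d → ℕ) (hL : ∀ i, T₀ ≤ L i) (Ψ : (ℕ → Option κ) → ℝ) (hΨ : ∀ σ, |Ψ σ| ≤ 1) :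
    |(∑ n ∈ bx L, Ψ (res I fun a => τ a n)) / (∏ i, (L i : ℝ)) - mean d (∏ a ∈ I, q a) (fun n => Ψ (res I fun a => τ a n))| ≤
      2 * (3 ^ J * (Λ ^ J / (J.factorial : ℝ))) + (3 ^ J + J * 2 ^ J) * ((Y : ℝ) ^ J * (2 * (d * (Y : ℝ) ^ J / T₀))) := by
  classical
  have hYr : (1 : ℝ) ≤ Y := by exact_mod_cast hY1
  have hL0 : ∀ i, (0 : ℝ) < L i := fun i => hT0.trans_le (hL i)
  have hP0 : 0 < ∏ i, (L i : ℝ) := prod_pos fun i _ => hL0 i
  obtain ⟨Q, hQ⟩ : ∃ Q : ℕ, Q = ∏ a ∈ I, q a := ⟨_, rfl⟩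
  have hQ1 : 0 < Q := by
    rw [hQ]
    exact prod_pos fun a ha => hq a ha
  -- the quantity δ
  obtain ⟨δ, hδ⟩ : ∃ δ : ℝ, δ = 2 * (d * (Y : ℝ) ^ J / T₀) := ⟨_, rfl⟩
  have hδ0 : 0 ≤ δ := by
    rw [hδ]
    positivity
  have hTY : ∀ j ≤ J, (d : ℝ) * (Y : ℝ) ^ j ≤ T₀ := fun j hj =>
    (mul_le_mul_of_nonneg_left (pow_le_pow_right₀ hYr hj) (Nat.cast_nonneg _)).trans hdT
  have hδj : ∀ j ≤ J, 2 * (d * (Y : ℝ) ^ j / T₀) ≤ δ := by
    intro j hj
    rw [hδ]
    refine mul_le_mul_of_nonneg_left (div_le_div_of_nonneg_right ?_ hT0.le) (by norm_num)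
    exact mul_le_mul_of_nonneg_left (pow_le_pow_right₀ hYr hj) (Nat.cast_nonneg _)
  -- the functions
  obtain ⟨F, hF⟩ : ∃ F : (Fin d → ℕ) → ℝ, F = fun n => Ψ (res I fun a => τ a n) := ⟨_, rfl⟩
  obtain ⟨g, hg⟩ : ∃ g : Finset ℕ → (Fin d → ℕ) → ℝ, g = fun T n => mu (fun R => Ψ (res R fun a => τ a n)) T := ⟨_, rfl⟩
  obtain ⟨𝒯, h𝒯⟩ : ∃ 𝒯 : Finset (Finset ℕ), 𝒯 = I.powerset.filter (fun T => T.card < J) := ⟨_, rfl⟩
  obtain ⟨G, hG⟩ : ∃ G : (Fin d → ℕ) → ℝ, G = fun n => ∑ T ∈ 𝒯, g T n := ⟨_, rfl⟩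
  obtain ⟨E, hE⟩ : ∃ E : (Fin d → ℕ) → ℝ, E = fun n => ∑ T ∈ powersetCard J I, ∏ p ∈ T, hit (τ p n) := ⟨_, rfl⟩
  have hFG : ∀ n, |F n - G n| ≤ 3 ^ J * E n := by
    intro n
    rw [hF, hG, hE, hg, h𝒯]
    exact point_est Ψ hΨ I (fun a => τ a n) J
  -- the means of E
  have hEmean : mean d Q E ≤ Λ ^ J / (J.factorial : ℝ) := by
    rw [hE, mean_sum']
    have h1 : ∀ T ∈ powersetCard J I, mean d Q (fun n => ∏ p ∈ T, hit (τ p n)) = ∏ p ∈ T, mean d (q p) (fun n => hit (τ p n)) := by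
      intro T hT
      rw [mem_powersetCard] at hT
      have h2 : mean d Q (fun n => ∏ p ∈ T, hit (τ p n)) = mean d (∏ a ∈ T, q a) (fun n => ∏ p ∈ T, hit (τ p n)) := by
        obtain ⟨k, hk⟩ : (∏ a ∈ T, q a) ∣ Q := by
          rw [hQ]
          exact prod_dvd_prod_of_subset _ _ _ hT.1
        have hk0 : 0 < k := by
          rcases Nat.eq_zero_or_pos k with h | h
          · rw [h, mul_zero] at hk
            omega
          · exact h
        rw [hk]
        refine mean_mul_period (prod_pos fun a ha => hq a (hT.1 ha)) k hk0 _ ?_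
        intro n
        refine prod_congr rfl fun p hp => ?_
        rw [hτ p (hT.1 hp) n, hτ p (hT.1 hp) (fun i => n i % ∏ a ∈ T, q a)]
        simp only [Nat.mod_mod_of_dvd _ (dvd_prod_of_mem q hp)]
      rw [h2]
      refine mean_prod T q (fun a ha => hq a (hT.1 ha)) (fun a ha b hb => hco a (hT.1 ha) b (hT.1 hb)) (fun p n => hit (τ p n)) ?_
      intro p hp n
      show hit (τ p n) = hit (τ p fun i => n i % q p)
      rw [← hτ p (hT.1 hp) n]
    rw [sum_congr rfl h1]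
    have h3 := esym_le I (fun p => mean d (q p) (fun n => hit (τ p n))) (fun a ha => by
      have := mean_mono (d := d) (q := q a) (F := fun _ => 0) (G := fun n => hit (τ a n)) (fun n => hit_nonneg _)
      rwa [mean_const d (q a) (hq a ha)] at this) J
    refine h3.trans (div_le_div_of_nonneg_right ?_ (by positivity))
    refine pow_le_pow_left₀ ?_ hlam J
    refine sum_nonneg fun a ha => ?_
    have := mean_mono (d := d) (q := q a) (F := fun _ => 0) (G := fun n => hit (τ a n)) (fun n => hit_nonneg _)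
    rwa [mean_const d (q a) (hq a ha)] at this
  have hcardJ : ((powersetCard J I).card : ℝ) ≤ (Y : ℝ) ^ J := by
    rw [card_powersetCard]
    have h1 : I.card.choose J ≤ Y ^ J := (Nat.choose_le_pow _ _).trans (Nat.pow_le_pow_left hIY J)
    exact_mod_cast h1
  have hEL : (∑ n ∈ bx L, E n) / (∏ i, (L i : ℝ)) ≤ mean d Q E + (Y : ℝ) ^ J * δ := by
    have h1 : (∑ n ∈ bx L, E n) / (∏ i, (L i : ℝ)) =
        ∑ T ∈ powersetCard J I, (∑ n ∈ bx L, ∏ p ∈ T, hit (τ p n)) / (∏ i, (L i : ℝ)) := by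
      rw [hE, ← sum_div, sum_comm]
    have h2 : mean d Q E = ∑ T ∈ powersetCard J I, mean d Q (fun n => ∏ p ∈ T, hit (τ p n)) := by
      rw [hE, mean_sum']
    rw [h1, h2]
    have h3 : ∀ T ∈ powersetCard J I, (∑ n ∈ bx L, ∏ p ∈ T, hit (τ p n)) / (∏ i, (L i : ℝ)) ≤
        mean d Q (fun n => ∏ p ∈ T, hit (τ p n)) + δ := by
      intro T hT
      rw [mem_powersetCard] at hT
      have h4 := box_per I q hq Y hY T₀ hT0 L hL T hT.1 (hTY _ hT.2.le) (fun n => ∏ p ∈ T, hit (τ p n)) (by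
        intro n
        refine prod_congr rfl fun p hp => ?_
        rw [hτ p (hT.1 hp) n, hτ p (hT.1 hp) (fun i => n i % ∏ a ∈ T, q a)]
        simp only [Nat.mod_mod_of_dvd _ (dvd_prod_of_mem q hp)]) 1 (by
        intro n
        rw [abs_prod]
        refine prod_le_one (fun p _ => abs_nonneg _) fun p _ => ?_
        rw [abs_of_nonneg (hit_nonneg _)]
        exact hit_le _)
      rw [← hQ, one_mul] at h4
      have h5 := (abs_le.1 h4).2
      have h6 := hδj _ hT.2.le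
      linarith
    refine (sum_le_sum h3).trans ?_
    rw [sum_add_distrib, sum_const, nsmul_eq_mul]
    have := mul_le_mul_of_nonneg_right hcardJ hδ0
    linarith
  -- the means of G
  have hGG : |(∑ n ∈ bx L, G n) / (∏ i, (L i : ℝ)) - mean d Q G| ≤ J * 2 ^ J * ((Y : ℝ) ^ J * δ) := by
    have h1 : (∑ n ∈ bx L, G n) / (∏ i, (L i : ℝ)) = ∑ T ∈ 𝒯, (∑ n ∈ bx L, g T n) / (∏ i, (L i : ℝ)) := by
      rw [hG, ← sum_div, sum_comm]
    have h2 : mean d Q G = ∑ T ∈ 𝒯, mean d Q (g T) := by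
      rw [hG, mean_sum']
    rw [h1, h2, ← sum_sub_distrib]
    refine (abs_sum_le_sum_abs _ _).trans ?_
    have h3 : ∀ T ∈ 𝒯, |(∑ n ∈ bx L, g T n) / (∏ i, (L i : ℝ)) - mean d Q (g T)| ≤ 2 ^ J * δ := by
      intro T hT
      rw [h𝒯, mem_filter, mem_powerset] at hT
      have hperg : Per (∏ a ∈ T, q a) (g T) := by
        intro n
        rw [hg]
        show mu (fun R => Ψ (res R fun a => τ a n)) T = mu (fun R => Ψ (res R fun a => τ a fun i => n i % ∏ a ∈ T, q a)) T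
        unfold mu
        refine sum_congr rfl fun R hR => ?_
        rw [mem_powerset] at hR
        congr 1
        show Ψ (res R fun a => τ a n) = Ψ (res R fun a => τ a fun i => n i % ∏ a ∈ T, q a)
        congr 1
        funext p
        unfold res
        by_cases hp : p ∈ R
        · rw [if_pos hp, if_pos hp]
          show τ p n = τ p (fun i => n i % ∏ a ∈ T, q a)
          rw [hτ p (hT.1 (hR hp)) n, hτ p (hT.1 (hR hp)) (fun i => n i % ∏ a ∈ T, q a)]
          simp only [Nat.mod_mod_of_dvd _ (dvd_prod_of_mem q (hR hp))]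
        · rw [if_neg hp, if_neg hp]
      have h4 := box_per I q hq Y hY T₀ hT0 L hL T hT.1 (hTY _ hT.2.le) (g T) hperg (2 ^ T.card) (by
        intro n
        rw [hg]
        exact mu_abs _ (fun R => hΨ _) T)
      rw [← hQ] at h4
      refine h4.trans (mul_le_mul (pow_le_pow_right₀ (by norm_num) hT.2.le) (hδj _ hT.2.le) (by positivity) (by positivity))
    refine (sum_le_sum h3).trans ?_
    rw [sum_const, nsmul_eq_mul]
    have h4 : (𝒯.card : ℝ) ≤ J * (Y : ℝ) ^ J := by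
      have h5 : 𝒯 = (range J).biUnion fun j => powersetCard j I := by
        rw [h𝒯]
        ext T
        rw [mem_filter, mem_powerset, mem_biUnion]
        constructor
        · rintro ⟨h6, h7⟩
          exact ⟨T.card, mem_range.2 h7, mem_powersetCard.2 ⟨h6, rfl⟩⟩
        · rintro ⟨j, hj, h6⟩
          rw [mem_powersetCard] at h6
          exact ⟨h6.1, by rw [h6.2]; exact mem_range.1 hj⟩
      have h6 : 𝒯.card ≤ J * Y ^ J := by
        rw [h5]
        refine card_biUnion_le.trans ?_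
        calc ∑ j ∈ range J, (powersetCard j I).card ≤ ∑ _j ∈ range J, Y ^ J := by
              refine sum_le_sum fun j hj => ?_
              rw [mem_range] at hj
              rw [card_powersetCard]
              exact ((Nat.choose_le_pow _ _).trans (Nat.pow_le_pow_left hIY j)).trans (Nat.pow_le_pow_right hY1 hj.le)
          _ = J * Y ^ J := by rw [sum_const, card_range, smul_eq_mul]
      exact_mod_cast h6
    calc (𝒯.card : ℝ) * (2 ^ J * δ) ≤ (J * (Y : ℝ) ^ J) * (2 ^ J * δ) := mul_le_mul_of_nonneg_right h4 (by positivity)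
      _ = _ := by ring
  -- the remainders
  have hR1 : |(∑ n ∈ bx L, F n) / (∏ i, (L i : ℝ)) - (∑ n ∈ bx L, G n) / (∏ i, (L i : ℝ))| ≤
      3 ^ J * ((∑ n ∈ bx L, E n) / (∏ i, (L i : ℝ))) := by
    rw [← sub_div, ← sum_sub_distrib, abs_div, abs_of_pos hP0, ← mul_div_assoc, mul_sum]
    refine div_le_div_of_nonneg_right ?_ hP0.le
    exact (abs_sum_le_sum_abs _ _).trans (sum_le_sum fun n _ => hFG n)
  have hR2 : |mean d Q F - mean d Q G| ≤ 3 ^ J * mean d Q E := by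
    unfold Pool.Agent.TH894.NE.mean
    rw [← mul_sub, ← sum_sub_distrib, abs_mul, abs_of_nonneg (by positivity : (0 : ℝ) ≤ 1 / (Q : ℝ) ^ d)]
    have h1 : |∑ n ∈ box d Q, (F n - G n)| ≤ ∑ n ∈ box d Q, 3 ^ J * E n :=
      (abs_sum_le_sum_abs _ _).trans (sum_le_sum fun n _ => hFG n)
    rw [← mul_sum] at h1
    calc 1 / (Q : ℝ) ^ d * |∑ n ∈ box d Q, (F n - G n)| ≤ 1 / (Q : ℝ) ^ d * (3 ^ J * ∑ n ∈ box d Q, E n) :=
          mul_le_mul_of_nonneg_left h1 (by positivity)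
      _ = _ := by ring
  have h1 := mul_le_mul_of_nonneg_left hEL (by positivity : (0 : ℝ) ≤ 3 ^ J)
  have h2 := mul_le_mul_of_nonneg_left hEmean (by positivity : (0 : ℝ) ≤ 3 ^ J)
  have hA := abs_le.1 hR1
  have hB := abs_le.1 hR2
  have hC := abs_le.1 hGG
  rw [← hQ]
  rw [← hδ]
  have hFeq : ∀ n, Ψ (res I fun a => τ a n) = F n := fun n => by rw [hF]
  simp only [hFeq]
  have hexp : (3 ^ J + J * 2 ^ J) * ((Y : ℝ) ^ J * δ) = 3 ^ J * ((Y : ℝ) ^ J * δ) + J * 2 ^ J * ((Y : ℝ) ^ J * δ) := by ring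
  rw [hexp]
  rw [mul_add] at h1
  rw [abs_le]
  constructor
  · linarith [hA.1, hA.2, hB.1, hB.2, hC.1, hC.2]
  · linarith [hA.1, hA.2, hB.1, hB.2, hC.1, hC.2]

end Q69LT
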