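import Pool.Agent.Q69.LT.ConfJ

/-!
# Configurations over long boxes: exponentially small total variation distance
-/

set_option autoImplicit false
set_option linter.unusedSectionVars false

namespace Q69LT

open Finset
open Q282LT
open Q282.BP (bx mem_bx card_bx bx_mean mean_mul_period)
open Pool.Agent.TH894.NE (box mem_box card_box Per mean mean_mul mean_mono mean_add mean_const mean_prod two_mod)

/-- the level of the truncation -/
lemma level (A Λ : ℝ) (hΛ : 0 ≤ Λ) (J : ℕ) (hJ : 3 * Real.exp (A + 3) * (Λ + 1) ≤ J) :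
    (3 * Λ) ^ J / (J.factorial : ℝ) ≤ Real.exp (-((A + 2) * J)) := by
  have he : 0 < Real.exp (A + 3) := Real.exp_pos _
  have h1 := Real.pow_div_factorial_le_exp (3 * Λ * Real.exp (A + 3)) (by positivity) J
  have h2 : (3 * Λ * Real.exp (A + 3)) ^ J / (J.factorial : ℝ) = (3 * Λ) ^ J / (J.factorial : ℝ) * Real.exp ((A + 3) * J) := by
    rw [mul_pow, ← Real.exp_nat_mul, mul_comm (J : ℝ) (A + 3)]
    ring
  rw [h2] at h1
  have h3 : 3 * Λ * Real.exp (A + 3) ≤ J := by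
    have : 3 * Λ * Real.exp (A + 3) ≤ 3 * Real.exp (A + 3) * (Λ + 1) := by nlinarith
    linarith
  have h4 : (3 * Λ) ^ J / (J.factorial : ℝ) * Real.exp ((A + 3) * J) ≤ Real.exp J := h1.trans (Real.exp_le_exp.2 h3)
  have h5 : (3 * Λ) ^ J / (J.factorial : ℝ) = (3 * Λ) ^ J / (J.factorial : ℝ) * Real.exp ((A + 3) * J) * Real.exp (-((A + 3) * J)) := by
    rw [mul_assoc, ← Real.exp_add, add_neg_cancel, Real.exp_zero, mul_one]
  rw [h5]
  calc (3 * Λ) ^ J / (J.factorial : ℝ) * Real.exp ((A + 3) * J) * Real.exp (-((A + 3) * J)) ≤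
      Real.exp J * Real.exp (-((A + 3) * J)) := mul_le_mul_of_nonneg_right h4 (Real.exp_pos _).le
    _ = Real.exp (-((A + 2) * J)) := by
        rw [← Real.exp_add]
        congr 1
        ring

/-- Configurations over boxes with sides at least `(d + 1) Y ^ (K (Λ + 1))` are distributed as for all residues up to
`exp (- A (Λ + 1))`. -/
theorem conf_exp (A : ℝ) (hA : 0 < A) : ∃ K : ℝ, 0 < K ∧ ∀ (κ : Type) (Λ : ℝ), 0 ≤ Λ →
    ∀ (d : ℕ) (I : Finset ℕ) (q : ℕ → ℕ) (τ : ℕ → (Fin d → ℕ) → Option κ), (∀ b ∈ I, 1 ≤ q b) →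
      (∀ a ∈ I, ∀ b ∈ I, a ≠ b → Nat.Coprime (q a) (q b)) → (∀ b ∈ I, ∀ n, τ b n = τ b (fun i => n i % q b)) →
      ∑ a ∈ I, mean d (q a) (fun n => hit (τ a n)) ≤ Λ →
      ∀ Y : ℕ, 2 ≤ Y → (∀ a ∈ I, q a ≤ Y) → I.card ≤ Y → ∀ L : Fin d → ℕ, (∀ i, (d + 1) * (Y : ℝ) ^ (K * (Λ + 1)) ≤ L i) →
      ∀ Ψ : (ℕ → Option κ) → ℝ, (∀ σ, |Ψ σ| ≤ 1) →
      |(∑ n ∈ bx L, Ψ (res I fun a => τ a n)) / (∏ i, (L i : ℝ)) - mean d (∏ a ∈ I, q a) (fun n => Ψ (res I fun a => τ a n))| ≤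
        Real.exp (-(A * (Λ + 1))) := by
  obtain ⟨k', hk'⟩ : ∃ k' : ℕ, Real.exp (A + 3) ≤ 2 ^ k' := by
    obtain ⟨n, hn⟩ := pow_unbounded_of_one_lt (Real.exp (A + 3)) (by norm_num : (1 : ℝ) < 2)
    exact ⟨n, hn.le⟩
  obtain ⟨B, hB⟩ : ∃ B : ℝ, B = 3 * Real.exp (A + 3) := ⟨_, rfl⟩
  have hB1 : 1 ≤ B := by
    rw [hB]
    have := Real.add_one_le_exp (A + 3)
    linarith
  refine ⟨((4 + k' : ℕ) : ℝ) * (B + 1), by positivity, ?_⟩
  intro κ Λ hΛ d I q τ hq hco hτ hlam Y hY2 hY hIY L hL Ψ hΨ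
  obtain ⟨J, hJ⟩ : ∃ J : ℕ, J = ⌈B * (Λ + 1)⌉₊ := ⟨_, rfl⟩
  have hJ1 : B * (Λ + 1) ≤ J := by
    rw [hJ]
    exact Nat.le_ceil _
  have hJ2 : (J : ℝ) ≤ (B + 1) * (Λ + 1) := by
    have := (Nat.ceil_lt_add_one (a := B * (Λ + 1)) (by positivity)).le
    rw [← hJ] at this
    nlinarith
  have hJ3 : Λ + 1 ≤ J := by nlinarith
  have hJ4 : (1 : ℝ) ≤ J := by linarith
  have hYr : (2 : ℝ) ≤ Y := by exact_mod_cast hY2
  have hY0 : (0 : ℝ) < Y := by linarith
  obtain ⟨T₀, hT₀⟩ : ∃ T₀ : ℝ, T₀ = (d + 1) * (Y : ℝ) ^ ((4 + k') * J) := ⟨_, rfl⟩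
  have hT0 : 0 < T₀ := by
    rw [hT₀]
    positivity
  have hdT : (d : ℝ) * (Y : ℝ) ^ J ≤ T₀ := by
    rw [hT₀]
    refine mul_le_mul (by linarith) (pow_le_pow_right₀ (by linarith) ?_) (by positivity) (by positivity)
    nlinarith [Nat.zero_le J, Nat.zero_le k']
  have hL' : ∀ i, T₀ ≤ L i := by
    intro i
    refine le_trans ?_ (hL i)
    rw [hT₀]
    refine mul_le_mul_of_nonneg_left ?_ (by positivity)
    rw [← Real.rpow_natCast]
    refine Real.rpow_le_rpow_of_exponent_le (by linarith) ?_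
    push_cast
    have : (0 : ℝ) ≤ 4 + k' := by positivity
    calc (4 + (k' : ℝ)) * J ≤ (4 + (k' : ℝ)) * ((B + 1) * (Λ + 1)) := mul_le_mul_of_nonneg_left hJ2 this
      _ = _ := by ring
  refine (conf_J J Λ d I q τ hq hco hτ hlam Y (by omega) hY hIY T₀ hT0 hdT L hL' Ψ hΨ).trans ?_
  have h1 : 2 * (3 ^ J * (Λ ^ J / (J.factorial : ℝ))) ≤ 2 * Real.exp (-((A + 2) * J)) := by
    have := level A Λ hΛ J (by rw [← hB]; exact hJ1)
    rw [mul_pow, mul_div_assoc] at this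
    linarith
  have h2 : (3 ^ J + J * 2 ^ J) * ((Y : ℝ) ^ J * (2 * (d * (Y : ℝ) ^ J / T₀))) ≤ 4 * Real.exp (-((A + 3) * J)) := by
    have h3 : (3 : ℝ) ^ J + J * 2 ^ J ≤ 2 * 4 ^ J := by
      have h4 : (3 : ℝ) ^ J ≤ 4 ^ J := pow_le_pow_left₀ (by norm_num) (by norm_num) J
      have h5 : (J : ℝ) ≤ 2 ^ J := by exact_mod_cast (Nat.lt_two_pow_self (n := J)).le
      have h6 : (J : ℝ) * 2 ^ J ≤ 4 ^ J := by
        calc (J : ℝ) * 2 ^ J ≤ 2 ^ J * 2 ^ J := mul_le_mul_of_nonneg_right h5 (by positivity)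
          _ = 4 ^ J := by rw [← mul_pow]; norm_num
      linarith
    have h4 : (Y : ℝ) ^ J * (2 * (d * (Y : ℝ) ^ J / T₀)) ≤ 2 / (4 ^ J * Real.exp ((A + 3) * J)) := by
      have h5 : (Y : ℝ) ^ J * (2 * (d * (Y : ℝ) ^ J / T₀)) = 2 * (d * (Y : ℝ) ^ (2 * J)) / T₀ := by
        rw [two_mul J, pow_add]
        ring
      rw [h5, div_le_div_iff₀ hT0 (by positivity), hT₀]
      have h6 : (4 : ℝ) ^ J * Real.exp ((A + 3) * J) ≤ (Y : ℝ) ^ ((2 + k') * J) := by
        have h7 : Real.exp ((A + 3) * J) ≤ (2 ^ k') ^ J := by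
          rw [mul_comm, Real.exp_nat_mul]
          exact pow_le_pow_left₀ (Real.exp_pos _).le hk' J
        calc (4 : ℝ) ^ J * Real.exp ((A + 3) * J) ≤ 4 ^ J * (2 ^ k') ^ J := mul_le_mul_of_nonneg_left h7 (by positivity)
          _ = 2 ^ ((2 + k') * J) := by
              rw [← mul_pow, show (4 : ℝ) = 2 ^ 2 by norm_num, ← pow_add, ← pow_mul]
          _ ≤ _ := pow_le_pow_left₀ (by norm_num) hYr _
      have h8 : (Y : ℝ) ^ ((4 + k') * J) = (Y : ℝ) ^ (2 * J) * (Y : ℝ) ^ ((2 + k') * J) := by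
        rw [← pow_add]
        congr 1
        ring
      rw [h8]
      calc 2 * (d * (Y : ℝ) ^ (2 * J)) * (4 ^ J * Real.exp ((A + 3) * J)) ≤
          2 * ((d + 1) * (Y : ℝ) ^ (2 * J)) * (Y : ℝ) ^ ((2 + k') * J) := by
            refine mul_le_mul ?_ h6 (by positivity) (by positivity)
            refine mul_le_mul_of_nonneg_left (mul_le_mul_of_nonneg_right (by linarith) (by positivity)) (by norm_num)
        _ = _ := by ring
    calc (3 ^ J + J * 2 ^ J) * ((Y : ℝ) ^ J * (2 * (d * (Y : ℝ) ^ J / T₀))) ≤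
        (2 * 4 ^ J) * (2 / (4 ^ J * Real.exp ((A + 3) * J))) := mul_le_mul h3 h4 (by positivity) (by positivity)
      _ = 4 * Real.exp (-((A + 3) * J)) := by
          rw [Real.exp_neg]
          field_simp
          ring
  have h3 : 2 * Real.exp (-((A + 2) * J)) + 4 * Real.exp (-((A + 3) * J)) ≤ Real.exp (-(A * J)) := by
    have e1 : Real.exp (-((A + 2) * J)) = Real.exp (-(A * J)) * Real.exp (-(2 * J)) := by
      rw [← Real.exp_add]
      congr 1
      ring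
    have e2 : Real.exp (-((A + 3) * J)) = Real.exp (-(A * J)) * Real.exp (-(3 * J)) := by
      rw [← Real.exp_add]
      congr 1
      ring
    have hh : (2 : ℝ) ≤ Real.exp J := by
      have := Real.add_one_le_exp (J : ℝ)
      linarith
    have e3 : Real.exp (-(2 * J)) ≤ 1 / 4 := by
      rw [Real.exp_neg, ← one_div]
      refine one_div_le_one_div_of_le (by norm_num) ?_
      have : Real.exp (2 * J) = Real.exp J * Real.exp J := by
        rw [← Real.exp_add]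
        congr 1
        ring
      rw [this]
      nlinarith
    have e4 : Real.exp (-(3 * J)) ≤ 1 / 8 := by
      rw [Real.exp_neg, ← one_div]
      refine one_div_le_one_div_of_le (by norm_num) ?_
      have : Real.exp (3 * J) = Real.exp J * Real.exp J * Real.exp J := by
        rw [← Real.exp_add, ← Real.exp_add]
        congr 1
        ring
      rw [this]
      nlinarith [mul_le_mul hh hh (by norm_num) (by linarith)]
    rw [e1, e2]
    have e5 := Real.exp_pos (-(A * J))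
    nlinarith
  have h4 : Real.exp (-(A * J)) ≤ Real.exp (-(A * (Λ + 1))) := by
    refine Real.exp_le_exp.2 ?_
    nlinarith
  linarith

end Q69LT
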