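import Mathlib

/-!
# Large deviations of sums of independent indicator variables of small probabilities
-/

set_option autoImplicit false
set_option linter.unusedSectionVars false

namespace Q69LT

open Finset

/-- the probability that the set of the successes is `S` -/
noncomputable def wt (I : Finset ℕ) (P : ℕ → ℝ) (S : Finset ℕ) : ℝ := (∏ a ∈ S, P a) * ∏ a ∈ I \ S, (1 - P a)

/-- the rate function `u log u - u + 1` -/
noncomputable def rate (u : ℝ) : ℝ := u * Real.log u - u + 1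

lemma wt_nonneg {I : Finset ℕ} {P : ℕ → ℝ} (h0 : ∀ a ∈ I, 0 ≤ P a) (h1 : ∀ a ∈ I, P a ≤ 1) {S : Finset ℕ} (hS : S ⊆ I) :
    0 ≤ wt I P S := by
  unfold wt
  refine mul_nonneg (prod_nonneg fun a ha => h0 a (hS ha)) (prod_nonneg fun a ha => ?_)
  have := h1 a (mem_sdiff.1 ha).1
  linarith

lemma wt_gen (I : Finset ℕ) (P : ℕ → ℝ) (u : ℝ) :
    ∑ S ∈ I.powerset, u ^ S.card * wt I P S = ∏ a ∈ I, (1 + (u - 1) * P a) := by
  have h1 : ∏ a ∈ I, (1 + (u - 1) * P a) = ∏ a ∈ I, (u * P a + (1 - P a)) := prod_congr rfl fun a _ => by ring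
  rw [h1, prod_add]
  refine sum_congr rfl fun S _ => ?_
  unfold wt
  rw [prod_mul_distrib, prod_const]
  ring

lemma gen_le (I : Finset ℕ) (P : ℕ → ℝ) (h0 : ∀ a ∈ I, 0 ≤ P a) (h1 : ∀ a ∈ I, P a ≤ 1) (u : ℝ) (hu : 0 ≤ u) :
    ∏ a ∈ I, (1 + (u - 1) * P a) ≤ Real.exp ((u - 1) * ∑ a ∈ I, P a) := by
  rw [mul_sum, Real.exp_sum]
  refine prod_le_prod (fun a ha => ?_) fun a ha => ?_
  · have := h0 a ha
    have := h1 a ha
    nlinarith
  · have := Real.add_one_le_exp ((u - 1) * P a)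
    linarith

/-- the upper bounds -/
lemma ld_upper (I : Finset ℕ) (P : ℕ → ℝ) (h0 : ∀ a ∈ I, 0 ≤ P a) (h1 : ∀ a ∈ I, P a ≤ 1) (Λ : ℝ) (hΛ : Λ = ∑ a ∈ I, P a)
    (u : ℝ) (hu : 0 < u) (Q : Finset ℕ → Prop) [DecidablePred Q] (hQ : ∀ S ⊆ I, Q S → 0 ≤ (S.card - u * Λ) * Real.log u) :
    ∑ S ∈ I.powerset.filter Q, wt I P S ≤ Real.exp (-(Λ * rate u)) := by
  have h2 : ∑ S ∈ I.powerset.filter Q, wt I P S ≤ ∑ S ∈ I.powerset, Real.exp (-(u * Λ * Real.log u)) * (u ^ S.card * wt I P S) := by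
    refine (sum_le_sum (g := fun S => Real.exp (-(u * Λ * Real.log u)) * (u ^ S.card * wt I P S)) fun S hS => ?_).trans
      (sum_le_sum_of_subset_of_nonneg (filter_subset _ _) fun S hS _ => ?_)
    · rw [mem_filter, mem_powerset] at hS
      have h3 := wt_nonneg h0 h1 hS.1
      have h4 : u ^ S.card = Real.exp (S.card * Real.log u) := by
        rw [mul_comm, Real.exp_mul, Real.exp_log hu, Real.rpow_natCast]
      rw [h4, ← mul_assoc, ← Real.exp_add]
      have h5 : 1 ≤ Real.exp (-(u * Λ * Real.log u) + S.card * Real.log u) := by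
        rw [← Real.exp_zero]
        refine Real.exp_le_exp.2 ?_
        have := hQ S hS.1 hS.2
        linarith
      nlinarith
    · have h3 := wt_nonneg h0 h1 (mem_powerset.1 hS)
      positivity
  rw [← mul_sum, wt_gen] at h2
  refine h2.trans ?_
  calc Real.exp (-(u * Λ * Real.log u)) * ∏ a ∈ I, (1 + (u - 1) * P a) ≤
      Real.exp (-(u * Λ * Real.log u)) * Real.exp ((u - 1) * ∑ a ∈ I, P a) :=
        mul_le_mul_of_nonneg_left (gen_le I P h0 h1 u hu.le) (Real.exp_pos _).le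
    _ = Real.exp (-(Λ * rate u)) := by
        rw [← Real.exp_add, ← hΛ]
        congr 1
        unfold rate
        ring

lemma esym_step (I : Finset ℕ) (P : ℕ → ℝ) (h0 : ∀ a ∈ I, 0 ≤ P a) (η : ℝ) (hη : ∀ a ∈ I, P a ≤ η) (k : ℕ) :
    (∑ a ∈ I, P a - k * η) * ∑ S ∈ powersetCard k I, ∏ a ∈ S, P a ≤ (k + 1) * ∑ S ∈ powersetCard (k + 1) I, ∏ a ∈ S, P a := by
  have h1 : ((k : ℝ) + 1) * ∑ S ∈ powersetCard (k + 1) I, ∏ a ∈ S, P a =
      ∑ S ∈ powersetCard k I, ∑ a ∈ I \ S, P a * ∏ b ∈ S, P b := by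
    have h2 : ((k : ℝ) + 1) * ∑ S ∈ powersetCard (k + 1) I, ∏ a ∈ S, P a =
        ∑ T ∈ powersetCard (k + 1) I, ∑ a ∈ T, P a * ∏ b ∈ T.erase a, P b := by
      rw [mul_sum]
      refine sum_congr rfl fun T hT => ?_
      rw [mem_powersetCard] at hT
      have h3 : ∀ a ∈ T, P a * ∏ b ∈ T.erase a, P b = ∏ b ∈ T, P b := fun a ha => mul_prod_erase T P ha
      rw [sum_congr rfl h3, sum_const, hT.2, nsmul_eq_mul]
      push_cast
      ring
    rw [h2, sum_sigma', sum_sigma']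
    refine sum_bij' (i := fun z _ => ⟨z.1.erase z.2, z.2⟩) (j := fun z _ => ⟨insert z.2 z.1, z.2⟩) ?_ ?_ ?_ ?_ ?_
    · rintro ⟨T, a⟩ hz
      rw [mem_sigma, mem_powersetCard] at hz
      rw [mem_sigma, mem_powersetCard, mem_sdiff]
      refine ⟨⟨(erase_subset _ _).trans hz.1.1, ?_⟩, hz.1.1 hz.2, notMem_erase _ _⟩
      have := card_erase_of_mem hz.2
      have := hz.1.2
      simp only at *
      omega
    · rintro ⟨S, a⟩ hz
      rw [mem_sigma, mem_powersetCard, mem_sdiff] at hz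
      rw [mem_sigma, mem_powersetCard]
      refine ⟨⟨insert_subset hz.2.1 hz.1.1, ?_⟩, mem_insert_self _ _⟩
      rw [card_insert_of_notMem hz.2.2, hz.1.2]
    · rintro ⟨T, a⟩ hz
      rw [mem_sigma] at hz
      simp only [insert_erase hz.2]
    · rintro ⟨S, a⟩ hz
      rw [mem_sigma, mem_sdiff] at hz
      simp only [erase_insert hz.2.2]
    · rintro ⟨T, a⟩ _
      rfl
  rw [h1, mul_sum]
  refine sum_le_sum fun S hS => ?_
  rw [mem_powersetCard] at hS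
  rw [← sum_mul]
  refine mul_le_mul_of_nonneg_right ?_ (prod_nonneg fun a ha => h0 a (hS.1 ha))
  have h2 := sum_sdiff hS.1 (f := P)
  have h3 : ∑ a ∈ S, P a ≤ k * η := by
    calc ∑ a ∈ S, P a ≤ ∑ _a ∈ S, η := sum_le_sum fun a ha => hη a (hS.1 ha)
      _ = k * η := by rw [sum_const, hS.2, nsmul_eq_mul]
  linarith

lemma esym_ge (I : Finset ℕ) (P : ℕ → ℝ) (h0 : ∀ a ∈ I, 0 ≤ P a) (η : ℝ) (hη0 : 0 ≤ η) (hη : ∀ a ∈ I, P a ≤ η) (K : ℕ)
    (hK : K * η ≤ ∑ a ∈ I, P a) : ∀ k ≤ K, (∑ a ∈ I, P a - K * η) ^ k / (k.factorial : ℝ) ≤ ∑ S ∈ powersetCard k I, ∏ a ∈ S, P a := by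
  intro k
  induction k with
  | zero =>
    intro _
    simp
  | succ k ih =>
    intro hk
    have h1 := ih (by omega)
    have h2 := esym_step I P h0 η hη k
    have hkK : (k : ℝ) * η ≤ K * η := by
      refine mul_le_mul_of_nonneg_right ?_ hη0
      exact_mod_cast (by omega : k ≤ K)
    have h3 : (∑ a ∈ I, P a - K * η) * ((∑ a ∈ I, P a - K * η) ^ k / (k.factorial : ℝ)) ≤
        (∑ a ∈ I, P a - k * η) * ∑ S ∈ powersetCard k I, ∏ a ∈ S, P a := by
      refine mul_le_mul (by linarith) h1 ?_ (by linarith)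
      have : 0 ≤ ∑ a ∈ I, P a - K * η := by linarith
      positivity
    have h4 : (∑ a ∈ I, P a - K * η) ^ (k + 1) / ((k + 1).factorial : ℝ) =
        (∑ a ∈ I, P a - K * η) * ((∑ a ∈ I, P a - K * η) ^ k / (k.factorial : ℝ)) / (k + 1) := by
      rw [Nat.factorial_succ]
      push_cast
      field_simp
      ring
    rw [h4, div_le_iff₀ (by positivity)]
    linarith [h3.trans h2]

lemma prod_one_sub_ge (I : Finset ℕ) (P : ℕ → ℝ) (h0 : ∀ a ∈ I, 0 ≤ P a) (η : ℝ) (hη2 : η ≤ 1 / 2) (hη : ∀ a ∈ I, P a ≤ η) :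
    Real.exp (-((1 + 2 * η) * ∑ a ∈ I, P a)) ≤ ∏ a ∈ I, (1 - P a) := by
  rw [mul_sum, ← sum_neg_distrib, Real.exp_sum]
  refine prod_le_prod (fun a _ => (Real.exp_pos _).le) fun a ha => ?_
  have h1 := h0 a ha
  have h2 := hη a ha
  have h3 : 0 < 1 - P a := by linarith
  rw [← Real.le_log_iff_exp_le h3]
  have h4 := Real.one_sub_inv_le_log_of_pos h3
  refine le_trans ?_ h4
  have h5 : (1 - P a)⁻¹ ≤ 1 + (1 + 2 * η) * P a := by
    rw [inv_le_iff_one_le_mul₀ h3]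
    nlinarith [mul_nonneg h1 (by linarith : (0 : ℝ) ≤ η - P a), mul_nonneg h1 h1]
  linarith

/-- the lower bound for the probability of `k` successes -/
lemma ld_point (I : Finset ℕ) (P : ℕ → ℝ) (h0 : ∀ a ∈ I, 0 ≤ P a) (η : ℝ) (hη0 : 0 ≤ η) (hη2 : η ≤ 1 / 2) (hη : ∀ a ∈ I, P a ≤ η)
    (k : ℕ) (hk : k * η ≤ ∑ a ∈ I, P a) :
    (∑ a ∈ I, P a - k * η) ^ k / (k.factorial : ℝ) * Real.exp (-((1 + 2 * η) * ∑ a ∈ I, P a)) ≤
      ∑ S ∈ powersetCard k I, wt I P S := by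
  have h1 : ∀ S ∈ powersetCard k I, (∏ a ∈ S, P a) * Real.exp (-((1 + 2 * η) * ∑ a ∈ I, P a)) ≤ wt I P S := by
    intro S hS
    rw [mem_powersetCard] at hS
    unfold wt
    refine mul_le_mul_of_nonneg_left ?_ (prod_nonneg fun a ha => h0 a (hS.1 ha))
    refine (prod_one_sub_ge I P h0 η hη2 hη).trans ?_
    rw [← prod_sdiff hS.1]
    refine mul_le_of_le_one_right (prod_nonneg fun a ha => ?_) (prod_le_one (fun a ha => ?_) fun a ha => ?_)
    · have := hη a (mem_sdiff.1 ha).1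
      linarith
    · have := hη a (hS.1 ha)
      linarith
    · have := h0 a (hS.1 ha)
      linarith
  refine le_trans ?_ (sum_le_sum h1)
  rw [← sum_mul]
  exact mul_le_mul_of_nonneg_right (esym_ge I P h0 η hη0 hη k hk k le_rfl) (Real.exp_pos _).le

lemma factorial_le (k : ℕ) (hk : 1 ≤ k) : (k.factorial : ℝ) ≤ Real.exp (1 + Real.log k + k * Real.log k - k) := by
  induction k, hk using Nat.le_induction with
  | base => simp
  | succ k hk ih =>
    have hk0 : (1 : ℝ) ≤ k := by exact_mod_cast hk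
    have hk1 : (0 : ℝ) < k := by linarith
    rw [Nat.factorial_succ]
    push_cast
    have h1 : ((k : ℝ) + 1) = Real.exp (Real.log (k + 1)) := (Real.exp_log (by linarith)).symm
    calc ((k : ℝ) + 1) * (k.factorial : ℝ) ≤ ((k : ℝ) + 1) * Real.exp (1 + Real.log k + k * Real.log k - k) :=
          mul_le_mul_of_nonneg_left ih (by linarith)
      _ = Real.exp (Real.log (k + 1) + (1 + Real.log k + k * Real.log k - k)) := by
          rw [Real.exp_add, Real.exp_log (by linarith)]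
      _ ≤ _ := by
          refine Real.exp_le_exp.2 ?_
          have h2 : 1 ≤ (k + 1) * (Real.log (k + 1) - Real.log k) := by
            rw [← Real.log_div (by linarith) hk1.ne']
            have h3 := Real.one_sub_inv_le_log_of_pos (show 0 < ((k : ℝ) + 1) / k by positivity)
            rw [inv_div] at h3
            have h4 : (k + 1) * (1 - (k : ℝ) / (k + 1)) = 1 := by
              field_simp
              ring
            nlinarith
          nlinarith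

/-- the exponent of the lower bound -/
lemma common (Λ η : ℝ) (k : ℕ) (hΛ : 0 < Λ) (hk : 1 ≤ k) (hη : 0 ≤ η) (h2 : 2 * (k * η) ≤ Λ) :
    Real.exp (k - k * (Real.log k - Real.log Λ) - Λ - 2 * k ^ 2 * η / Λ - 2 * Λ * η - 1 - Real.log k) ≤
      (Λ - k * η) ^ k / (k.factorial : ℝ) * Real.exp (-((1 + 2 * η) * Λ)) := by
  have hk0 : (1 : ℝ) ≤ k := by exact_mod_cast hk
  have hkη : 0 ≤ (k : ℝ) * η := by positivity
  obtain ⟨t, ht⟩ : ∃ t : ℝ, t = k * η / Λ := ⟨_, rfl⟩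
  have ht0 : 0 ≤ t := by
    rw [ht]
    positivity
  have ht1 : t ≤ 1 / 2 := by
    rw [ht, div_le_iff₀ hΛ]
    linarith
  have h3 : Real.exp (-(2 * t)) ≤ 1 - t := by
    have h4 : 0 < 1 - t := by linarith
    rw [← Real.le_log_iff_exp_le h4]
    refine le_trans ?_ (Real.one_sub_inv_le_log_of_pos h4)
    have h5 : (1 - t)⁻¹ ≤ 1 + 2 * t := by
      rw [inv_le_iff_one_le_mul₀ h4]
      nlinarith
    linarith
  have h4 : Λ - k * η = Λ * (1 - t) := by
    rw [ht]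
    field_simp
  have h5 : Real.exp (k * (Real.log Λ - 2 * t)) ≤ (Λ - k * η) ^ k := by
    have h6 : Real.exp (k * (Real.log Λ - 2 * t)) = (Λ * Real.exp (-(2 * t))) ^ k := by
      rw [Real.exp_nat_mul, sub_eq_add_neg, Real.exp_add, Real.exp_log hΛ]
    rw [h6, h4]
    exact pow_le_pow_left₀ (by positivity) (mul_le_mul_of_nonneg_left h3 hΛ.le) k
  have h6 : Real.exp (-(1 + Real.log k + k * Real.log k - k)) ≤ 1 / (k.factorial : ℝ) := by
    rw [Real.exp_neg, ← one_div]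
    exact one_div_le_one_div_of_le (by positivity) (factorial_le k hk)
  have h7 : k - k * (Real.log k - Real.log Λ) - Λ - 2 * k ^ 2 * η / Λ - 2 * Λ * η - 1 - Real.log k =
      k * (Real.log Λ - 2 * t) + -(1 + Real.log k + k * Real.log k - k) + -((1 + 2 * η) * Λ) := by
    rw [ht]
    field_simp
    ring
  rw [h7, Real.exp_add, Real.exp_add, div_eq_mul_one_div]
  refine mul_le_mul_of_nonneg_right ?_ (Real.exp_pos _).le
  have h8 : 0 ≤ Λ - k * η := by linarith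
  exact mul_le_mul h5 h6 (Real.exp_pos _).le (by positivity)

/-- the constants -/
lemma consts (U ε : ℝ) (hU : 1 ≤ U) (hε : 0 < ε) : ∃ Λ₀ η : ℝ, 1 ≤ Λ₀ ∧ 0 < η ∧ η ≤ 1 / 2 ∧ 2 * ((U + 1) * η) ≤ 1 ∧
    2 * ((U + 1) ^ 2 + 1) * η ≤ ε / 2 ∧ ∀ Λ : ℝ, Λ₀ ≤ Λ → 2 + 2 * Real.log (U + 1) + 2 * Real.log Λ ≤ ε / 2 * Λ := by
  have h1 : ∀ᶠ Λ : ℝ in Filter.atTop, 2 + 2 * Real.log (U + 1) + 2 * Real.log Λ ≤ ε / 2 * Λ := by
    have h2 := Real.isLittleO_log_id_atTop.def (show 0 < ε / 8 by positivity)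
    filter_upwards [h2, Filter.eventually_ge_atTop (1 : ℝ), Filter.eventually_ge_atTop ((2 + 2 * Real.log (U + 1)) * (4 / ε))] with Λ h3 h4 h5
    simp only [id, Real.norm_eq_abs] at h3
    rw [abs_of_nonneg (Real.log_nonneg h4), abs_of_nonneg (by linarith)] at h3
    have h6 : 2 + 2 * Real.log (U + 1) ≤ ε / 4 * Λ := by
      have h7 := mul_le_mul_of_nonneg_left h5 (show 0 ≤ ε / 4 by positivity)
      have h8 : ε / 4 * ((2 + 2 * Real.log (U + 1)) * (4 / ε)) = 2 + 2 * Real.log (U + 1) := by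
        field_simp
      linarith
    linarith
  obtain ⟨Λ₀, hΛ₀⟩ := Filter.eventually_atTop.1 h1
  obtain ⟨D, hD⟩ : ∃ D : ℝ, D = 2 * ((U + 1) ^ 2 + 1) := ⟨_, rfl⟩
  have hD1 : 1 ≤ D := by
    rw [hD]
    nlinarith
  have hD2 : 2 * (U + 1) ≤ D := by
    rw [hD]
    nlinarith
  refine ⟨max Λ₀ 1, min (1 / 2) 1 * min 1 (ε / 2) / D, le_max_right _ _, by positivity, ?_, ?_, ?_, ?_⟩
  · rw [div_le_iff₀ (by linarith)]
    have : min (1 / 2 : ℝ) 1 = 1 / 2 := by norm_num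
    rw [this]
    have := min_le_left 1 (ε / 2)
    nlinarith
  · rw [← mul_assoc, ← mul_div_assoc, div_le_iff₀ (by linarith)]
    have : min (1 / 2 : ℝ) 1 = 1 / 2 := by norm_num
    rw [this]
    have h3 := min_le_left 1 (ε / 2)
    have h4 : 0 < min 1 (ε / 2) := by positivity
    nlinarith
  · rw [← hD, mul_div_assoc', mul_div_right_comm, div_self (by linarith), one_mul]
    have : min (1 / 2 : ℝ) 1 = 1 / 2 := by norm_num
    rw [this]
    have h3 := min_le_right 1 (ε / 2)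
    have h4 : 0 < min 1 (ε / 2) := by positivity
    linarith
  · intro Λ hΛ
    exact hΛ₀ Λ ((le_max_left _ _).trans hΛ)

/-- the lower bound, upper tail -/
lemma lower_up (U ε Λ η : ℝ) (hΛ1 : 1 ≤ Λ) (hη : 0 < η) (hη2 : 2 * ((U + 1) * η) ≤ 1)
    (hη3 : 2 * ((U + 1) ^ 2 + 1) * η ≤ ε / 2) (hΛ : 2 + 2 * Real.log (U + 1) + 2 * Real.log Λ ≤ ε / 2 * Λ)
    (u : ℝ) (hu : 1 ≤ u) (huU : u ≤ U) : ∃ k : ℕ, u * Λ ≤ k ∧ (k : ℝ) * η ≤ Λ ∧
      Real.exp (-(Λ * (rate u + ε))) ≤ (Λ - k * η) ^ k / (k.factorial : ℝ) * Real.exp (-((1 + 2 * η) * Λ)) := by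
  have hΛ0 : 0 < Λ := by linarith
  have hu0 : 0 < u := by linarith
  obtain ⟨k, hk⟩ : ∃ k : ℕ, k = ⌈u * Λ⌉₊ := ⟨_, rfl⟩
  have hk1 : u * Λ ≤ k := by
    rw [hk]
    exact Nat.le_ceil _
  have hk2 : (k : ℝ) < u * Λ + 1 := by
    rw [hk]
    exact Nat.ceil_lt_add_one (by positivity)
  have hk3 : (k : ℝ) ≤ (U + 1) * Λ := by nlinarith
  have hk4 : (1 : ℝ) ≤ k := by nlinarith
  have hk5 : 1 ≤ k := by exact_mod_cast hk4
  have hk0 : (0 : ℝ) < k := by linarith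
  have hkη : 2 * ((k : ℝ) * η) ≤ Λ := by
    calc 2 * ((k : ℝ) * η) ≤ 2 * ((U + 1) * Λ * η) := by
          have := mul_le_mul_of_nonneg_right hk3 hη.le
          linarith
      _ = 2 * ((U + 1) * η) * Λ := by ring
      _ ≤ 1 * Λ := mul_le_mul_of_nonneg_right hη2 hΛ0.le
      _ = Λ := one_mul _
  refine ⟨k, hk1, by nlinarith [mul_nonneg hk0.le hη.le], ?_⟩
  refine le_trans (Real.exp_le_exp.2 ?_) (common Λ η k hΛ0 hk5 hη.le hkη)
  -- the logarithms
  have hlogk : Real.log k - Real.log Λ ≤ Real.log (U + 1) := by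
    rw [← Real.log_div hk0.ne' hΛ0.ne']
    refine Real.log_le_log (by positivity) ?_
    rw [div_le_iff₀ hΛ0]
    exact hk3
  have hlogU : 0 ≤ Real.log (U + 1) := Real.log_nonneg (by linarith)
  have h1 : Real.log k - Real.log (u * Λ) ≤ (k - u * Λ) / (u * Λ) := by
    rw [← Real.log_div hk0.ne' (by positivity)]
    have h2 := Real.log_le_sub_one_of_pos (show 0 < (k : ℝ) / (u * Λ) by positivity)
    refine h2.trans (le_of_eq ?_)
    field_simp
  rw [Real.log_mul hu0.ne' hΛ0.ne'] at h1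
  have h2 : u * Λ * (Real.log k - Real.log Λ) ≤ u * Λ * Real.log u + (k - u * Λ) := by
    have h3 := mul_le_mul_of_nonneg_left h1 (show 0 ≤ u * Λ by positivity)
    rw [mul_div_cancel₀ _ (show u * Λ ≠ 0 by positivity)] at h3
    nlinarith
  have h3 : (k - u * Λ) * (Real.log k - Real.log Λ) ≤ Real.log (U + 1) := by
    have h4 : (k - u * Λ) * (Real.log k - Real.log Λ) ≤ (k - u * Λ) * Real.log (U + 1) :=
      mul_le_mul_of_nonneg_left hlogk (by linarith)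
    nlinarith
  have h4 : k * (Real.log k - Real.log Λ) ≤ u * Λ * Real.log u + (k - u * Λ) + Real.log (U + 1) := by
    have : k * (Real.log k - Real.log Λ) = u * Λ * (Real.log k - Real.log Λ) + (k - u * Λ) * (Real.log k - Real.log Λ) := by ring
    linarith
  have h5 : 2 * (k : ℝ) ^ 2 * η / Λ ≤ 2 * (U + 1) ^ 2 * η * Λ := by
    rw [div_le_iff₀ hΛ0]
    have h6 : (k : ℝ) ^ 2 ≤ ((U + 1) * Λ) ^ 2 := pow_le_pow_left₀ hk0.le hk3 2
    nlinarith
  have h6 : Real.log k ≤ Real.log (U + 1) + Real.log Λ := by linarith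
  have h7 : 2 * (U + 1) ^ 2 * η * Λ + 2 * Λ * η ≤ ε / 2 * Λ := by
    have := mul_le_mul_of_nonneg_right hη3 hΛ0.le
    nlinarith
  have h8 : Real.log Λ ≥ 0 := Real.log_nonneg hΛ1
  unfold rate
  nlinarith

/-- the lower bound, lower tail -/
lemma lower_down (U ε Λ η : ℝ) (hU : 1 ≤ U) (hΛ1 : 1 ≤ Λ) (hη : 0 < η) (hη2 : 2 * ((U + 1) * η) ≤ 1)
    (hη3 : 2 * ((U + 1) ^ 2 + 1) * η ≤ ε / 2) (hΛ : 2 + 2 * Real.log (U + 1) + 2 * Real.log Λ ≤ ε / 2 * Λ)
    (u : ℝ) (hu : 0 ≤ u) (hu1 : u ≤ 1) : ∃ k : ℕ, (k : ℝ) ≤ u * Λ ∧ (k : ℝ) * η ≤ Λ ∧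
      Real.exp (-(Λ * (rate u + ε))) ≤ (Λ - k * η) ^ k / (k.factorial : ℝ) * Real.exp (-((1 + 2 * η) * Λ)) := by
  have hΛ0 : 0 < Λ := by linarith
  have hlogU : 0 ≤ Real.log (U + 1) := Real.log_nonneg (by linarith)
  have hlogΛ : 0 ≤ Real.log Λ := Real.log_nonneg hΛ1
  have hU2 : 4 ≤ (U + 1) ^ 2 := by nlinarith
  have hηε : 4 * η ≤ ε / 2 := by nlinarith
  obtain ⟨k, hk⟩ : ∃ k : ℕ, k = ⌊u * Λ⌋₊ := ⟨_, rfl⟩
  have hk1 : (k : ℝ) ≤ u * Λ := by
    rw [hk]
    exact Nat.floor_le (by positivity)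
  have hk2 : u * Λ < k + 1 := by
    rw [hk]
    exact Nat.lt_floor_add_one _
  have hkΛ : (k : ℝ) ≤ Λ := by nlinarith
  have hηs : η ≤ 1 / 4 := by nlinarith
  refine ⟨k, hk1, by nlinarith [(Nat.cast_nonneg k : (0 : ℝ) ≤ k)], ?_⟩
  rcases Nat.eq_zero_or_pos k with h0 | h0
  · rw [h0] at hk2 ⊢
    simp only [Nat.cast_zero, zero_mul, sub_zero, pow_zero, Nat.factorial_zero, Nat.cast_one, div_one, one_mul, zero_add] at hk2 ⊢
    refine Real.exp_le_exp.2 ?_
    unfold rate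
    have h3 : u * Λ - u * Λ * Real.log u ≤ 1 + Real.log Λ := by
      rcases eq_or_lt_of_le hu with h4 | h4
      · rw [← h4]
        simp
        linarith
      · have h5 : 0 < u * Λ := by positivity
        have h6 := Real.one_sub_inv_le_log_of_pos h5
        rw [Real.log_mul h4.ne' hΛ0.ne'] at h6
        have h7 := mul_le_mul_of_nonneg_left h6 h5.le
        rw [mul_sub, mul_one, mul_inv_cancel₀ h5.ne'] at h7
        nlinarith
    nlinarith
  · have hk5 : 1 ≤ k := h0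
    have hk4 : (1 : ℝ) ≤ k := by exact_mod_cast hk5
    have hk0 : (0 : ℝ) < k := by linarith
    have hu0 : 0 < u := by
      rcases eq_or_lt_of_le hu with h4 | h4
      · rw [← h4] at hk1
        simp at hk1
        linarith
      · exact h4
    refine le_trans (Real.exp_le_exp.2 ?_) (common Λ η k hΛ0 hk5 hη.le (by nlinarith))
    have h1 : Real.log k ≤ Real.log (u * Λ) := Real.log_le_log hk0 hk1
    rw [Real.log_mul hu0.ne' hΛ0.ne'] at h1
    have h2 : Real.log k ≤ Real.log Λ := Real.log_le_log hk0 hkΛ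
    have hlu : Real.log u ≤ 0 := Real.log_nonpos hu hu1
    have hlu2 : -Real.log Λ ≤ Real.log u := by
      have h3 : 1 ≤ u * Λ := by linarith
      have h4 := Real.log_nonneg h3
      rw [Real.log_mul hu0.ne' hΛ0.ne'] at h4
      linarith
    have h3 : k * (Real.log k - Real.log Λ) ≤ k * Real.log u := mul_le_mul_of_nonneg_left (by linarith) hk0.le
    have h4 : k * Real.log u ≤ u * Λ * Real.log u + Real.log Λ := by
      have h5 : (u * Λ - k) * (-Real.log u) ≤ 1 * (-Real.log u) := mul_le_mul_of_nonneg_right (by linarith) (by linarith)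
      nlinarith
    have h5 : 2 * (k : ℝ) ^ 2 * η / Λ ≤ 2 * η * Λ := by
      rw [div_le_iff₀ hΛ0]
      have h6 : (k : ℝ) ^ 2 ≤ Λ ^ 2 := pow_le_pow_left₀ hk0.le hkΛ 2
      nlinarith
    have h7 : 4 * η * Λ ≤ ε / 2 * Λ := mul_le_mul_of_nonneg_right hηε hΛ0.le
    unfold rate
    nlinarith

/-- **Large deviations of the number of the successes.** -/
theorem ld_main (U ε : ℝ) (hU : 1 ≤ U) (hε : 0 < ε) : ∃ Λ₀ η : ℝ, 1 ≤ Λ₀ ∧ 0 < η ∧ η ≤ 1 / 2 ∧
    ∀ (I : Finset ℕ) (P : ℕ → ℝ), (∀ a ∈ I, 0 ≤ P a) → (∀ a ∈ I, P a ≤ η) → ∀ Λ : ℝ, Λ = ∑ a ∈ I, P a → Λ₀ ≤ Λ →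
      (∀ u : ℝ, 1 ≤ u → u ≤ U →
        Real.exp (-(Λ * (rate u + ε))) ≤ ∑ S ∈ I.powerset.filter (fun S => u * Λ ≤ S.card), wt I P S ∧
        ∑ S ∈ I.powerset.filter (fun S => u * Λ ≤ S.card), wt I P S ≤ Real.exp (-(Λ * rate u))) ∧
      (∀ u : ℝ, 0 ≤ u → u ≤ 1 →
        Real.exp (-(Λ * (rate u + ε))) ≤ ∑ S ∈ I.powerset.filter (fun S => (S.card : ℝ) ≤ u * Λ), wt I P S ∧
        ∑ S ∈ I.powerset.filter (fun S => (S.card : ℝ) ≤ u * Λ), wt I P S ≤ Real.exp (-(Λ * rate u))) := by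
  obtain ⟨Λ₀, η, hΛ₀, hη0, hη1, hη2, hη3, hΛc⟩ := consts U ε hU hε
  refine ⟨Λ₀, η, hΛ₀, hη0, hη1, ?_⟩
  intro I P h0 hP Λ hΛ hΛΛ
  have h1 : ∀ a ∈ I, P a ≤ 1 := fun a ha => (hP a ha).trans (by linarith)
  have hΛ1 : 1 ≤ Λ := hΛ₀.trans hΛΛ
  have hsub : ∀ (k : ℕ) (Q : Finset ℕ → Prop) [DecidablePred Q], (∀ S : Finset ℕ, S.card = k → Q S) →
      ∑ S ∈ powersetCard k I, wt I P S ≤ ∑ S ∈ I.powerset.filter Q, wt I P S := by
    intro k Q _ hQ
    refine sum_le_sum_of_subset_of_nonneg (fun S hS => ?_) fun S hS _ => ?_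
    · rw [mem_powersetCard] at hS
      rw [mem_filter, mem_powerset]
      exact ⟨hS.1, hQ S hS.2⟩
    · rw [mem_filter, mem_powerset] at hS
      exact wt_nonneg h0 h1 hS.1
  refine ⟨fun u hu huU => ⟨?_, ?_⟩, fun u hu hu1 => ⟨?_, ?_⟩⟩
  · obtain ⟨k, hk1, hk2, hk3⟩ := lower_up U ε Λ η hΛ1 hη0 hη2 hη3 (hΛc Λ hΛΛ) u hu huU
    have h2 := ld_point I P h0 η hη0.le hη1 hP k (by rw [← hΛ]; exact hk2)
    rw [← hΛ] at h2
    refine hk3.trans (h2.trans (hsub k _ fun S hS => ?_))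
    rw [hS]
    exact hk1
  · refine ld_upper I P h0 h1 Λ hΛ u (by linarith) _ fun S _ hS => ?_
    exact mul_nonneg (by linarith) (Real.log_nonneg hu)
  · obtain ⟨k, hk1, hk2, hk3⟩ := lower_down U ε Λ η hU hΛ1 hη0 hη2 hη3 (hΛc Λ hΛΛ) u hu hu1
    have h2 := ld_point I P h0 η hη0.le hη1 hP k (by rw [← hΛ]; exact hk2)
    rw [← hΛ] at h2
    refine hk3.trans (h2.trans (hsub k _ fun S hS => ?_))
    rw [hS]
    exact hk1
  · rcases eq_or_lt_of_le hu with h2 | h2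
    · subst h2
      have h3 : I.powerset.filter (fun S => (S.card : ℝ) ≤ 0 * Λ) = {∅} := by
        ext S
        rw [mem_filter, mem_powerset, mem_singleton, zero_mul]
        constructor
        · rintro ⟨_, h4⟩
          have h5 : S.card = 0 := by
            have : (S.card : ℝ) = 0 := le_antisymm h4 (Nat.cast_nonneg _)
            exact_mod_cast this
          exact card_eq_zero.1 h5
        · rintro rfl
          exact ⟨empty_subset _, by simp⟩
      rw [h3, sum_singleton]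
      have h4 := gen_le I P h0 h1 0 le_rfl
      have h5 : wt I P ∅ = ∏ a ∈ I, (1 + (0 - 1) * P a) := by
        unfold wt
        rw [prod_empty, one_mul, sdiff_empty]
        exact prod_congr rfl fun a _ => by ring
      rw [h5]
      refine h4.trans (le_of_eq ?_)
      rw [← hΛ]
      unfold rate
      congr 1
      simp
    · refine ld_upper I P h0 h1 Λ hΛ u h2 _ fun S _ hS => ?_
      exact mul_nonneg_of_nonpos_of_nonpos (by linarith) (Real.log_nonpos hu hu1)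

end Q69LT
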