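import Pool.Agent.Q69.LT.Exp
import Pool.Agent.Q69.LT.LD

/-!
# Large deviations of the number of hits over boxes of integers
-/

set_option autoImplicit false
set_option linter.unusedSectionVars false

namespace Q69LT

open Finset
open Q282LT
open Q282.BP (bx mem_bx card_bx bx_mean mean_mul_period)
open Pool.Agent.TH894.NE (box mem_box card_box Per mean mean_mul mean_mono mean_add mean_const mean_prod two_mod)

/-- the decidability instance does not matter -/
lemma sum_filter_inst {s : Finset (Finset ℕ)} {Q : Finset ℕ → Prop} (i1 i2 : DecidablePred Q)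
    (f : Finset ℕ → ℝ) : ∑ S ∈ @Finset.filter _ Q i1 s, f S = ∑ S ∈ @Finset.filter _ Q i2 s, f S := by
  have h : i1 = i2 := Subsingleton.elim _ _
  rw [h]

open Classical in
/-- the law of the set of the hits in the model -/
lemma mean_hits {d : ℕ} {κ : Type} (I : Finset ℕ) (q : ℕ → ℕ) (hq : ∀ b ∈ I, 1 ≤ q b)
    (hco : ∀ a ∈ I, ∀ b ∈ I, a ≠ b → Nat.Coprime (q a) (q b)) (T : ℕ → (Fin d → ℕ) → Option κ)
    (hT : ∀ b ∈ I, ∀ n, T b n = T b (fun i => n i % q b)) (Q : Finset ℕ → Prop) :
    mean d (∏ a ∈ I, q a) (fun n => if Q (I.filter fun a => T a n ≠ none) then 1 else 0) =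
      ∑ S ∈ I.powerset.filter Q, wt I (fun a => mean d (q a) (fun n => hit (T a n))) S := by
  have h1 : (fun n : Fin d → ℕ => if Q (I.filter fun a => T a n ≠ none) then (1 : ℝ) else 0) =
      fun n => ∑ S ∈ I.powerset.filter Q, ∏ a ∈ I, if a ∈ S then hit (T a n) else 1 - hit (T a n) := by
    funext n
    obtain ⟨H, hH⟩ : ∃ H : Finset ℕ, H = I.filter fun a => T a n ≠ none := ⟨_, rfl⟩
    have hHI : H ⊆ I := by
      rw [hH]
      exact filter_subset _ _
    rw [← hH]
    have h2 : ∀ S ∈ I.powerset.filter Q, (∏ a ∈ I, if a ∈ S then hit (T a n) else 1 - hit (T a n)) = if S = H then (1 : ℝ) else 0 := by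
      intro S hS
      rw [mem_filter, mem_powerset] at hS
      by_cases h : S = H
      · rw [if_pos h]
        refine prod_eq_one fun a ha => ?_
        by_cases haS : a ∈ S
        · rw [if_pos haS]
          rw [h, hH, mem_filter] at haS
          unfold hit
          rw [if_neg haS.2]
        · rw [if_neg haS]
          rw [h, hH, mem_filter] at haS
          have : T a n = none := by
            by_contra h3
            exact haS ⟨ha, h3⟩
          unfold hit
          rw [if_pos this, sub_zero]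
      · rw [if_neg h]
        obtain ⟨a, ha⟩ : ∃ a, ¬ (a ∈ S ↔ a ∈ H) := by
          by_contra h3
          push Not at h3
          exact h (Finset.ext h3)
        have haI : a ∈ I := by
          by_contra h3
          exact ha ⟨fun h4 => absurd (hS.1 h4) h3, fun h4 => absurd (hHI h4) h3⟩
        refine prod_eq_zero haI ?_
        by_cases haS : a ∈ S
        · rw [if_pos haS]
          have haH : a ∉ H := fun h3 => ha ⟨fun _ => h3, fun _ => haS⟩
          rw [hH, mem_filter] at haH
          have : T a n = none := by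
            by_contra h3
            exact haH ⟨haI, h3⟩
          unfold hit
          rw [if_pos this]
        · rw [if_neg haS]
          have haH : a ∈ H := by
            by_contra h3
            exact ha ⟨fun h4 => absurd h4 haS, fun h4 => absurd h4 h3⟩
          rw [hH, mem_filter] at haH
          unfold hit
          rw [if_neg haH.2, sub_self]
    rw [sum_congr rfl h2, sum_ite_eq']
    refine if_congr ?_ rfl rfl
    rw [mem_filter, mem_powerset]
    exact ⟨fun h3 => ⟨hHI, h3⟩, fun h3 => h3.2⟩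
  rw [h1, mean_sum']
  refine sum_congr rfl fun S hS => ?_
  rw [mem_filter, mem_powerset] at hS
  rw [mean_prod I q hq hco (fun a n => if a ∈ S then hit (T a n) else 1 - hit (T a n)) (fun a ha n => by
    show (if a ∈ S then hit (T a n) else 1 - hit (T a n)) =
      if a ∈ S then hit (T a fun i => n i % q a) else 1 - hit (T a fun i => n i % q a)
    rw [← hT a ha n])]
  unfold wt
  rw [← prod_sdiff hS.1, mul_comm]
  congr 1
  · refine prod_congr rfl fun a ha => ?_
    simp only [if_pos ha]
  · refine prod_congr rfl fun a ha => ?_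
    rw [mem_sdiff] at ha
    simp only [if_neg ha.2]
    have h3 := mean_add (d := d) (q := q a) (fun _ => 1) (fun n => -1 * hit (T a n))
    rw [mean_const d (q a) (hq a ha.1), mean_mul] at h3
    have h4 : (fun n : Fin d → ℕ => 1 - hit (T a n)) = fun n => (1 : ℝ) + -1 * hit (T a n) := by
      funext n
      ring
    rw [h4, h3]
    ring

open Classical in
/-- **Large deviations of the number of hits over boxes.** -/
theorem ld_z (U ε : ℝ) (hU : 1 ≤ U) (hε : 0 < ε) : ∃ K Λ₀ η : ℝ, 0 < K ∧ 1 ≤ Λ₀ ∧ 0 < η ∧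
    ∀ (d : ℕ) (I : Finset ℕ) (q : ℕ → ℕ) (E : ℕ → (Fin d → ℤ) → Prop), (∀ b ∈ I, 1 ≤ q b) →
      (∀ a ∈ I, ∀ b ∈ I, a ≠ b → Nat.Coprime (q a) (q b)) →
      (∀ b ∈ I, ∀ ν ν' : Fin d → ℤ, (∀ i, (q b : ℤ) ∣ ν i - ν' i) → (E b ν ↔ E b ν')) →
      (∀ a ∈ I, rprop d (q a) (E a) ≤ η) → ∀ Λ : ℝ, Λ = ∑ a ∈ I, rprop d (q a) (E a) → Λ₀ ≤ Λ →
      ∀ Y : ℕ, 2 ≤ Y → (∀ a ∈ I, q a ≤ Y) → I.card ≤ Y → ∀ (m : Fin d → ℤ) (L : Fin d → ℕ),
        (∀ i, (d + 1) * (Y : ℝ) ^ (K * Λ) ≤ L i) →
      (∀ u : ℝ, 1 ≤ u → u ≤ U →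
        Real.exp (-(Λ * (rate u + ε))) ≤ zprop m L (fun ν => u * Λ ≤ (I.filter fun a => E a ν).card) ∧
        zprop m L (fun ν => u * Λ ≤ (I.filter fun a => E a ν).card) ≤ Real.exp (-(Λ * (rate u - ε)))) ∧
      (∀ u : ℝ, 0 ≤ u → u ≤ 1 →
        Real.exp (-(Λ * (rate u + ε))) ≤ zprop m L (fun ν => ((I.filter fun a => E a ν).card : ℝ) ≤ u * Λ) ∧
        zprop m L (fun ν => ((I.filter fun a => E a ν).card : ℝ) ≤ u * Λ) ≤ Real.exp (-(Λ * (rate u - ε)))) := by
  obtain ⟨Λ₁, η, hΛ₁, hη0, hη1, hld⟩ := ld_main U (ε / 2) hU (by positivity)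
  have hUl : 0 ≤ U * Real.log U := mul_nonneg (by linarith) (Real.log_nonneg hU)
  obtain ⟨K, hK, hconf⟩ := conf_exp (U * Real.log U + 2 + ε) (by linarith)
  refine ⟨2 * K, max Λ₁ (2 / ε), η, by positivity, hΛ₁.trans (le_max_left _ _), hη0, ?_⟩
  intro d I q E hq hco hE hP Λ hΛ hΛΛ Y hY2 hY hIY m L hL
  have hΛ1 : 1 ≤ Λ := hΛ₁.trans ((le_max_left _ _).trans hΛΛ)
  have hΛε : 2 ≤ Λ * ε := by
    have := (le_max_right Λ₁ (2 / ε)).trans hΛΛ
    rwa [div_le_iff₀ hε] at this
  have hYr : (2 : ℝ) ≤ Y := by exact_mod_cast hY2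
  obtain ⟨τ, hτ⟩ : ∃ τ : ℕ → (Fin d → ℤ) → Option Unit, τ = fun a ν => if E a ν then some () else none := ⟨_, rfl⟩
  have hτE : ∀ a ν, τ a ν ≠ none ↔ E a ν := by
    intro a ν
    rw [hτ]
    by_cases h : E a ν
    · simp [h]
    · simp [h]
  have hτper : ∀ b ∈ I, ∀ ν ν' : Fin d → ℤ, (∀ i, (q b : ℤ) ∣ ν i - ν' i) → τ b ν = τ b ν' := by
    intro b hb ν ν' h
    rw [hτ]
    exact if_congr (hE b hb ν ν' h) rfl rfl
  obtain ⟨T, hT⟩ : ∃ T : ℕ → (Fin d → ℕ) → Option Unit, T = fun a n => τ a (fun i => m i + n i) := ⟨_, rfl⟩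
  have hTper : ∀ b ∈ I, ∀ n, T b n = T b (fun i => n i % q b) := by
    intro b hb n
    rw [hT]
    refine hτper b hb _ _ fun i => ?_
    rw [add_sub_add_left_eq_sub]
    push_cast
    exact Int.dvd_self_sub_emod
  have hhit : ∀ a ∈ I, mean d (q a) (fun n => hit (T a n)) = rprop d (q a) (E a) := by
    intro a ha
    rw [← rprop_shift (hq a ha) (P := E a) (fun ν ν' hνν => hE a ha ν ν' hνν) m, hT]
    congr 1
    funext n
    unfold hit
    rw [hτ]
    by_cases h1 : E a (fun i => m i + n i)
    · simp [h1]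
    · simp [h1]
  have hwt : ∀ S ∈ I.powerset, wt I (fun a => mean d (q a) (fun n => hit (T a n))) S = wt I (fun a => rprop d (q a) (E a)) S := by
    intro S hS
    rw [mem_powerset] at hS
    unfold wt
    congr 1
    · exact prod_congr rfl fun a ha => hhit a (hS ha)
    · exact prod_congr rfl fun a ha => congrArg (fun z : ℝ => 1 - z) (hhit a (mem_sdiff.1 ha).1)
  have hP0 : ∀ a ∈ I, 0 ≤ rprop d (q a) (E a) := by
    intro a ha
    rw [← hhit a ha]
    have := mean_mono (d := d) (q := q a) (F := fun _ => 0) (G := fun n => hit (T a n)) (fun n => hit_nonneg _)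
    rwa [mean_const d (q a) (hq a ha)] at this
  have hsides : ∀ i, (d + 1) * (Y : ℝ) ^ (K * (Λ + 1)) ≤ L i := by
    intro i
    refine le_trans (mul_le_mul_of_nonneg_left (Real.rpow_le_rpow_of_exponent_le (by linarith) ?_) (by positivity)) (hL i)
    nlinarith
  -- the comparison
  have key : ∀ Q : Finset ℕ → Prop, |zprop m L (fun ν => Q (I.filter fun a => E a ν)) -
      ∑ S ∈ I.powerset.filter Q, wt I (fun a => rprop d (q a) (E a)) S| ≤ Real.exp (-((U * Real.log U + 2 + ε) * (Λ + 1))) := by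
    intro Q
    have h1 := hconf Unit Λ (by linarith) d I q T hq hco hTper (by
      rw [sum_congr rfl hhit, ← hΛ]) Y hY2 hY hIY L hsides
      (fun φ => if Q (I.filter fun a => φ a ≠ none) then 1 else 0) (fun φ => by
        show |(if Q (I.filter fun a => φ a ≠ none) then (1 : ℝ) else 0)| ≤ 1
        split_ifs <;> norm_num)
    have h2 : ∀ n, (I.filter fun a => (res I fun a => T a n) a ≠ none) = I.filter fun a => T a n ≠ none := by
      intro n
      refine filter_congr fun a ha => ?_
      unfold res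
      rw [if_pos ha]
    simp only [h2] at h1
    rw [mean_hits I q hq hco T hTper Q, sum_congr rfl fun S hS => hwt S (mem_filter.1 hS).1] at h1
    have h3 : zprop m L (fun ν => Q (I.filter fun a => E a ν)) =
        (∑ n ∈ bx L, if Q (I.filter fun a => T a n ≠ none) then (1 : ℝ) else 0) / ∏ i, (L i : ℝ) := by
      unfold zprop
      rw [zbox_card, card_filter]
      push_cast
      congr 1
      refine sum_congr rfl fun n _ => ?_
      have h4 : (I.filter fun a => E a (fun i => m i + n i)) = I.filter fun a => T a n ≠ none := by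
        refine filter_congr fun a _ => ?_
        rw [hT]
        exact (hτE a _).symm
      rw [h4]
    rw [h3]
    exact h1
  obtain ⟨hup, hdown⟩ := hld I (fun a => rprop d (q a) (E a)) hP0 hP Λ hΛ ((le_max_left _ _).trans hΛΛ)
  -- the numerical estimates
  have hrate : ∀ u : ℝ, 0 ≤ u → u ≤ U → rate u ≤ U * Real.log U + 1 := by
    intro u hu huU
    unfold rate
    rcases le_total u 1 with h1 | h1
    · have := mul_nonpos_of_nonneg_of_nonpos hu (Real.log_nonpos hu h1)
      linarith
    · have h2 : Real.log u ≤ Real.log U := Real.log_le_log (by linarith) huU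
      have h3 : u * Real.log u ≤ U * Real.log U := mul_le_mul huU h2 (Real.log_nonneg h1) (by linarith)
      linarith
  have hnum : ∀ u : ℝ, 0 ≤ u → u ≤ U → ∀ x w : ℝ, |x - w| ≤ Real.exp (-((U * Real.log U + 2 + ε) * (Λ + 1))) →
      Real.exp (-(Λ * (rate u + ε / 2))) ≤ w → w ≤ Real.exp (-(Λ * rate u)) →
      Real.exp (-(Λ * (rate u + ε))) ≤ x ∧ x ≤ Real.exp (-(Λ * (rate u - ε))) := by
    intro u hu huU x w hx hw1 hw2
    have hr := hrate u hu huU
    have h1 := abs_le.1 hx
    have he1 : Real.exp (-1) ≤ 1 / 2 := by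
      rw [Real.exp_neg, ← one_div]
      refine one_div_le_one_div_of_le (by norm_num) ?_
      have := Real.add_one_le_exp (1 : ℝ)
      linarith
    have h2 : Real.exp (-((U * Real.log U + 2 + ε) * (Λ + 1))) ≤ Real.exp (-(Λ * (rate u + ε / 2))) * (1 / 2) := by
      calc Real.exp (-((U * Real.log U + 2 + ε) * (Λ + 1))) ≤ Real.exp (-(Λ * (rate u + ε / 2)) + -1) := by
            refine Real.exp_le_exp.2 ?_
            nlinarith
        _ ≤ _ := by
            rw [Real.exp_add]
            exact mul_le_mul_of_nonneg_left he1 (Real.exp_pos _).le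
    have h3 : Real.exp (-(Λ * (rate u + ε))) ≤ Real.exp (-(Λ * (rate u + ε / 2))) * (1 / 2) := by
      calc Real.exp (-(Λ * (rate u + ε))) ≤ Real.exp (-(Λ * (rate u + ε / 2)) + -1) := by
            refine Real.exp_le_exp.2 ?_
            nlinarith
        _ ≤ _ := by
            rw [Real.exp_add]
            exact mul_le_mul_of_nonneg_left he1 (Real.exp_pos _).le
    constructor
    · linarith [h1.1]
    · have h4 : Real.exp (-(Λ * (rate u + ε / 2))) ≤ Real.exp (-(Λ * rate u)) := by
        refine Real.exp_le_exp.2 ?_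
        nlinarith
      have h5 : Real.exp (-(Λ * rate u)) ≤ Real.exp (-(Λ * (rate u - ε))) * (1 / 2) := by
        calc Real.exp (-(Λ * rate u)) ≤ Real.exp (-(Λ * (rate u - ε)) + -1) := by
              refine Real.exp_le_exp.2 ?_
              nlinarith
          _ ≤ _ := by
              rw [Real.exp_add]
              exact mul_le_mul_of_nonneg_left he1 (Real.exp_pos _).le
      have h6 := Real.exp_pos (-(Λ * rate u))
      linarith [h1.2]
  refine ⟨fun u hu huU => ?_, fun u hu hu1 => ?_⟩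
  · obtain ⟨h1, h2⟩ := hup u hu huU
    have h3 := key fun S => u * Λ ≤ S.card
    exact hnum u (by linarith) huU _ _ h3 (h1.trans_eq (sum_filter_inst _ _ _)) ((sum_filter_inst _ _ _).trans_le h2)
  · obtain ⟨h1, h2⟩ := hdown u hu hu1
    have h3 := key fun S => (S.card : ℝ) ≤ u * Λ
    exact hnum u hu (by linarith) _ _ h3 (h1.trans_eq (sum_filter_inst _ _ _)) ((sum_filter_inst _ _ _).trans_le h2)

end Q69LT
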